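import Pool.Agent.Helper27.CW.Spec

/-! Q5m, Q5i, Q5d: averages of the cubic character of a 4-linear form. -/

open Finset

namespace Pool.Agent.Helper6.CW

open Helper27.CW

lemma chi_three (x t : ZMod 3) (ht : t ≠ 0) : chi x + chi (x + t) + chi (x + t + t) = 0 := by
  revert x t
  have h : ∀ x t : ZMod 3, t ≠ 0 → ((x = 0 ∧ x + t ≠ 0 ∧ x + t + t ≠ 0) ∨
      (x ≠ 0 ∧ x + t = 0 ∧ x + t + t ≠ 0) ∨ (x ≠ 0 ∧ x + t ≠ 0 ∧ x + t + t = 0)) := by decide
  intro x t ht
  rcases h x t ht with ⟨h1, h2, h3⟩ | ⟨h1, h2, h3⟩ | ⟨h1, h2, h3⟩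
  · rw [chi, chi, chi, if_pos h1, if_neg h2, if_neg h3]; norm_num
  · rw [chi, chi, chi, if_neg h1, if_pos h2, if_neg h3]; norm_num
  · rw [chi, chi, chi, if_neg h1, if_neg h2, if_pos h3]; norm_num

/-- orthogonality -/
lemma sum_chi {V : Type*} [AddCommGroup V] [Fintype V] (h : V → ZMod 3)
    (hadd : ∀ x y, h (x + y) = h x + h y) :
    (∑ v, chi (h v)) = open Classical in if ∀ v, h v = 0 then (Fintype.card V : ℝ) else 0 := by
  classical
  split_ifs with h0
  · simp [h0, chi]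
  · push Not at h0
    obtain ⟨v₀, hv₀⟩ := h0
    have e1 : ∑ v, chi (h v) = ∑ v, chi (h v + h v₀) := by
      rw [← Equiv.sum_comp (Equiv.addRight v₀) (fun v => chi (h v))]
      exact Finset.sum_congr rfl fun v _ => by simp [hadd]
    have e2 : ∑ v, chi (h v) = ∑ v, chi (h v + h v₀ + h v₀) := by
      rw [← Equiv.sum_comp (Equiv.addRight (v₀ + v₀)) (fun v => chi (h v))]
      exact Finset.sum_congr rfl fun v _ => by simp [hadd, add_assoc]
    have e3 : ∑ v, chi (h v) + ∑ v, chi (h v + h v₀) + ∑ v, chi (h v + h v₀ + h v₀) = 0 := by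
      rw [← Finset.sum_add_distrib, ← Finset.sum_add_distrib]
      exact Finset.sum_eq_zero fun v _ => chi_three _ _ hv₀
    linarith

lemma sum_chi_nonneg {V : Type*} [AddCommGroup V] [Fintype V] (h : V → ZMod 3)
    (hadd : ∀ x y, h (x + y) = h x + h y) : 0 ≤ ∑ v, chi (h v) := by
  classical
  rw [sum_chi h hadd]
  split_ifs <;> positivity

section

variable {V1 V2 V3 V4 U4 : Type*} [AddCommGroup V1] [AddCommGroup V2]
  [AddCommGroup V3] [AddCommGroup V4] [AddCommGroup U4] [Fintype V1] [Fintype V2] [Fintype V3]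
  [Fintype V4] [Fintype U4]

lemma Add4_cyc {Q : V1 → V2 → V3 → V4 → ZMod 3} (h : Add4 Q) :
    Add4 (fun d a b c => Q a b c d) :=
  ⟨fun d d' a b c => h.2.2.2 a b c d d', fun d a a' b c => h.1 a a' b c d,
    fun d a b b' c => h.2.1 a b b' c d, fun d a b c c' => h.2.2.1 a b c c' d⟩

omit [AddCommGroup V1] [AddCommGroup V2] [AddCommGroup V3] [AddCommGroup V4] in
lemma GB_cyc (Q : V1 → V2 → V3 → V4 → ZMod 3) : GB Q = GB (fun d a b c => Q a b c d) := by
  simp only [GB]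
  congr 1
  · have h1 : ∀ a b, (∑ c, ∑ d, chi (Q a b c d)) = ∑ d, ∑ c, chi (Q a b c d) :=
      fun a b => Finset.sum_comm
    have h2 : ∀ a, (∑ b, ∑ c, ∑ d, chi (Q a b c d)) = ∑ d, ∑ b, ∑ c, chi (Q a b c d) := by
      intro a
      rw [Finset.sum_congr rfl fun b _ => h1 a b, Finset.sum_comm]
    rw [Finset.sum_congr rfl fun a _ => h2 a, Finset.sum_comm]
  · ring

lemma GB_nonneg {Q : V1 → V2 → V3 → V4 → ZMod 3} (h : Add4 Q) : 0 ≤ GB Q := by
  rw [GB]
  refine div_nonneg ?_ (by positivity)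
  refine Finset.sum_nonneg fun a _ => Finset.sum_nonneg fun b _ => Finset.sum_nonneg fun c _ => ?_
  exact sum_chi_nonneg _ fun x y => h.2.2.2 a b c x y

omit [AddCommGroup V1] [AddCommGroup V2] [AddCommGroup V3] [AddCommGroup V4] in
lemma GB_le_one (Q : V1 → V2 → V3 → V4 → ZMod 3) : GB Q ≤ 1 := by
  rw [GB]
  have hchi : ∀ x : ZMod 3, chi x ≤ 1 := by
    intro x; simp only [chi]; split_ifs <;> norm_num
  apply div_le_one_of_le₀ _ (by positivity)
  calc ∑ a, ∑ b, ∑ c, ∑ d, chi (Q a b c d) ≤ ∑ _a : V1, ∑ _b : V2, ∑ _c : V3, ∑ _d : V4, (1 : ℝ) :=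
        Finset.sum_le_sum fun a _ => Finset.sum_le_sum fun b _ => Finset.sum_le_sum fun c _ =>
          Finset.sum_le_sum fun d _ => hchi _
    _ = _ := by simp [mul_assoc]

omit [AddCommGroup V1] [AddCommGroup V2] [AddCommGroup V3] [AddCommGroup V4] in
lemma GB_eq (R : V1 → V2 → V3 → V4 → ZMod 3) : GB R =
    (∑ a, ∑ b, ∑ c, (∑ d, chi (R a b c d)) / Fintype.card V4) /
      ((Fintype.card V1 : ℝ) * Fintype.card V2 * Fintype.card V3) := by
  rw [GB]
  simp only [← Finset.sum_div]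
  rw [div_div]
  congr 1
  ring

/-- restricting the last variable -/
lemma mono4 {Q : V1 → V2 → V3 → V4 → ZMod 3} (h : Add4 Q) (f : U4 →+ V4) :
    GB Q ≤ GB (fun a b c d => Q a b c (f d)) := by
  classical
  have hV : (0 : ℝ) < Fintype.card V4 := by
    exact_mod_cast Fintype.card_pos_iff.2 ⟨0⟩
  have hU : (0 : ℝ) < Fintype.card U4 := by
    exact_mod_cast Fintype.card_pos_iff.2 ⟨0⟩
  have key : ∀ a b c, (∑ d, chi (Q a b c d)) / Fintype.card V4 ≤
      (∑ d, chi (Q a b c (f d))) / Fintype.card U4 := by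
    intro a b c
    have e1 := sum_chi (fun d => Q a b c d) fun x y => h.2.2.2 a b c x y
    have e2 := sum_chi (fun d => Q a b c (f d)) fun x y => by
      rw [map_add]; exact h.2.2.2 a b c _ _
    rw [e1, e2]
    split_ifs with h1 h2
    · rw [div_self hV.ne', div_self hU.ne']
    · exact absurd (fun v => h1 (f v)) h2
    · rw [zero_div]; positivity
    · simp
  rw [GB_eq, GB_eq]
  refine div_le_div_of_nonneg_right ?_ (by positivity)
  exact Finset.sum_le_sum fun a _ => Finset.sum_le_sum fun b _ => Finset.sum_le_sum fun c _ =>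
    key a b c

/-- index bound in the last variable -/
lemma index4 {Q : V1 → V2 → V3 → V4 → ZMod 3} (h : Add4 Q) (f : U4 →+ V4) (K : ℕ)
    (hK : Fintype.card V4 ≤ K * Nat.card f.range) :
    GB (fun a b c d => Q a b c (f d)) ≤ K * GB Q := by
  classical
  set S : V4 → ℝ := fun d => ∑ a, ∑ b, ∑ c, chi (Q a b c d) with hS
  have hS0 : ∀ d, 0 ≤ S d := fun d => Finset.sum_nonneg fun a _ => Finset.sum_nonneg fun b _ =>
    sum_chi_nonneg _ fun x y => h.2.2.1 a b x y d
  have e1 : GB Q = (∑ d, S d) /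
      ((Fintype.card V1 : ℝ) * Fintype.card V2 * Fintype.card V3 * Fintype.card V4) := by
    rw [GB_cyc, GB]
    congr 1
    ring
  have e2 : GB (fun a b c d => Q a b c (f d)) = (∑ u, S (f u)) /
      ((Fintype.card V1 : ℝ) * Fintype.card V2 * Fintype.card V3 * Fintype.card U4) := by
    rw [GB_cyc, GB]
    congr 1
    ring
  set R : Finset V4 := Finset.univ.image f with hR
  set k := (Finset.univ.filter fun u => f u = 0).card with hk
  have hfib : ∀ v ∈ R, (Finset.univ.filter fun u => f u = v).card = k := by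
    intro v hv
    rw [hR, Finset.mem_image] at hv
    obtain ⟨u, -, hu⟩ := hv
    exact AddMonoidHom.card_fiber_eq_of_mem_range f ⟨u, hu⟩ ⟨0, map_zero f⟩
  have e3 : ∑ u, S (f u) = k * ∑ v ∈ R, S v := by
    rw [← Finset.sum_fiberwise_of_maps_to (t := R) (g := f)
      (fun u _ => Finset.mem_image_of_mem _ (Finset.mem_univ u)), Finset.mul_sum]
    refine Finset.sum_congr rfl fun v hv => ?_
    rw [Finset.sum_congr rfl (g := fun _ => S v) (fun u hu => by
      rw [(Finset.mem_filter.1 hu).2]), Finset.sum_const, hfib v hv, nsmul_eq_mul]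
  have e4 : (Fintype.card U4 : ℝ) = k * R.card := by
    have : Fintype.card U4 = ∑ v ∈ R, k := by
      rw [← Finset.card_univ, Finset.card_eq_sum_card_fiberwise (t := R) (f := f)
        (fun u _ => Finset.mem_image_of_mem _ (Finset.mem_univ u))]
      exact Finset.sum_congr rfl hfib
    rw [this]
    push_cast
    simp [mul_comm]
  have hcard : Nat.card f.range = R.card := by
    have : (f.range : Set V4) = (R : Set V4) := by
      ext v; simp [hR]
    rw [← SetLike.coe_sort_coe, this, Nat.card_eq_card_toFinset]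
    simp
  have hk0 : 0 < k := Finset.card_pos.2 ⟨0, by simp⟩
  have hR0 : 0 < R.card := Finset.card_pos.2 ⟨f 0, Finset.mem_image_of_mem _ (Finset.mem_univ _)⟩
  have hk1 : (0 : ℝ) < k := by exact_mod_cast hk0
  have hR1 : (0 : ℝ) < R.card := by exact_mod_cast hR0
  have h1 : (0 : ℝ) < Fintype.card V1 := by exact_mod_cast Fintype.card_pos_iff.2 ⟨0⟩
  have h2 : (0 : ℝ) < Fintype.card V2 := by exact_mod_cast Fintype.card_pos_iff.2 ⟨0⟩
  have h3 : (0 : ℝ) < Fintype.card V3 := by exact_mod_cast Fintype.card_pos_iff.2 ⟨0⟩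
  have h4 : (0 : ℝ) < Fintype.card V4 := by exact_mod_cast Fintype.card_pos_iff.2 ⟨0⟩
  have hsub : ∑ v ∈ R, S v ≤ ∑ v, S v :=
    Finset.sum_le_sum_of_subset_of_nonneg (Finset.subset_univ _) fun v _ _ => hS0 v
  have hKr : (Fintype.card V4 : ℝ) ≤ K * R.card := by
    rw [hcard] at hK; exact_mod_cast hK
  have hST : 0 ≤ ∑ v, S v := Finset.sum_nonneg fun v _ => hS0 v
  rw [e1, e2, e3, e4]
  rw [show (k : ℝ) * ∑ v ∈ R, S v = k * (∑ v ∈ R, S v) from rfl]
  have e5 : (k : ℝ) * (∑ v ∈ R, S v) /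
      ((Fintype.card V1 : ℝ) * Fintype.card V2 * Fintype.card V3 * (k * R.card)) =
      (∑ v ∈ R, S v) / ((Fintype.card V1 : ℝ) * Fintype.card V2 * Fintype.card V3 * R.card) := by
    field_simp
  rw [e5, ← mul_div_assoc, div_le_div_iff₀ (by positivity) (by positivity)]
  have hN : (0 : ℝ) < (Fintype.card V1 : ℝ) * Fintype.card V2 * Fintype.card V3 := by positivity
  calc (∑ v ∈ R, S v) * ((Fintype.card V1 : ℝ) * Fintype.card V2 * Fintype.card V3 *
        Fintype.card V4) ≤ (∑ v, S v) * ((Fintype.card V1 : ℝ) * Fintype.card V2 *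
        Fintype.card V3 * (K * R.card)) := by gcongr
    _ = K * (∑ v, S v) * ((Fintype.card V1 : ℝ) * Fintype.card V2 * Fintype.card V3 * R.card) := by
        ring

end

theorem gmono : S_gmono := by
  intro V1 V2 V3 V4 U1 U2 U3 U4 _ _ _ _ _ _ _ _ _ _ _ _ _ _ _ _ Q h f1 f2 f3 f4
  have h1 := mono4 h f4
  have a1 : Add4 (fun a b c d => Q a b c (f4 d)) :=
    ⟨fun a a' b c d => h.1 _ _ _ _ _, fun a b b' c d => h.2.1 _ _ _ _ _,
      fun a b c c' d => h.2.2.1 _ _ _ _ _, fun a b c d d' => by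
        simp only [map_add]; exact h.2.2.2 _ _ _ _ _⟩
  rw [GB_cyc (fun a b c d => Q a b c (f4 d))] at h1
  have h2 := mono4 (Add4_cyc a1) f3
  have a2 : Add4 (fun d a b c => Q a b (f3 c) (f4 d)) :=
    ⟨fun d d' a b c => (Add4_cyc a1).1 _ _ _ _ _, fun d a a' b c => (Add4_cyc a1).2.1 _ _ _ _ _,
      fun d a b b' c => (Add4_cyc a1).2.2.1 _ _ _ _ _, fun d a b c c' => by
        simp only [map_add]; exact (Add4_cyc a1).2.2.2 _ _ _ _ _⟩
  rw [GB_cyc (fun d a b c => Q a b (f3 c) (f4 d))] at h2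
  have h3 := mono4 (Add4_cyc a2) f2
  have a3 : Add4 (fun c d a b => Q a (f2 b) (f3 c) (f4 d)) :=
    ⟨fun c c' d a b => (Add4_cyc a2).1 _ _ _ _ _, fun c d d' a b => (Add4_cyc a2).2.1 _ _ _ _ _,
      fun c d a a' b => (Add4_cyc a2).2.2.1 _ _ _ _ _, fun c d a b b' => by
        simp only [map_add]; exact (Add4_cyc a2).2.2.2 _ _ _ _ _⟩
  rw [GB_cyc (fun c d a b => Q a (f2 b) (f3 c) (f4 d))] at h3
  have h4 := mono4 (Add4_cyc a3) f1
  rw [GB_cyc (fun b c d a => Q (f1 a) (f2 b) (f3 c) (f4 d))] at h4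
  exact h1.trans (h2.trans (h3.trans h4))

theorem gindex : S_gindex := by
  intro V1 V2 V3 V4 U1 U2 U3 U4 _ _ _ _ _ _ _ _ _ _ _ _ _ _ _ _ Q h f1 f2 f3 f4 K k1 k2 k3 k4
  have h1 := index4 h f4 K k4
  have a1 : Add4 (fun a b c d => Q a b c (f4 d)) :=
    ⟨fun a a' b c d => h.1 _ _ _ _ _, fun a b b' c d => h.2.1 _ _ _ _ _,
      fun a b c c' d => h.2.2.1 _ _ _ _ _, fun a b c d d' => by
        simp only [map_add]; exact h.2.2.2 _ _ _ _ _⟩
  rw [GB_cyc (fun a b c d => Q a b c (f4 d))] at h1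
  have h2 := index4 (Add4_cyc a1) f3 K k3
  have a2 : Add4 (fun d a b c => Q a b (f3 c) (f4 d)) :=
    ⟨fun d d' a b c => (Add4_cyc a1).1 _ _ _ _ _, fun d a a' b c => (Add4_cyc a1).2.1 _ _ _ _ _,
      fun d a b b' c => (Add4_cyc a1).2.2.1 _ _ _ _ _, fun d a b c c' => by
        simp only [map_add]; exact (Add4_cyc a1).2.2.2 _ _ _ _ _⟩
  rw [GB_cyc (fun d a b c => Q a b (f3 c) (f4 d))] at h2
  have h3 := index4 (Add4_cyc a2) f2 K k2
  have a3 : Add4 (fun c d a b => Q a (f2 b) (f3 c) (f4 d)) :=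
    ⟨fun c c' d a b => (Add4_cyc a2).1 _ _ _ _ _, fun c d d' a b => (Add4_cyc a2).2.1 _ _ _ _ _,
      fun c d a a' b => (Add4_cyc a2).2.2.1 _ _ _ _ _, fun c d a b b' => by
        simp only [map_add]; exact (Add4_cyc a2).2.2.2 _ _ _ _ _⟩
  rw [GB_cyc (fun c d a b => Q a (f2 b) (f3 c) (f4 d))] at h3
  have h4 := index4 (Add4_cyc a3) f1 K k1
  rw [GB_cyc (fun b c d a => Q (f1 a) (f2 b) (f3 c) (f4 d))] at h4
  have hK : (0 : ℝ) ≤ K := Nat.cast_nonneg K
  refine h4.trans ?_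
  refine (mul_le_mul_of_nonneg_left h3 hK).trans ?_
  refine (mul_le_mul_of_nonneg_left (mul_le_mul_of_nonneg_left h2 hK) hK).trans ?_
  refine (mul_le_mul_of_nonneg_left (mul_le_mul_of_nonneg_left
    (mul_le_mul_of_nonneg_left h1 hK) hK) hK).trans (le_of_eq ?_)
  ring

end Pool.Agent.Helper6.CW
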