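import Pool.Agent.Helper27.CW.Spec

/-! Q1: the linear structure of an additive pair. -/

namespace Pool.Agent.Helper6.CW

open Finset Helper27.CD Helper27.CW

lemma sq_cast (x y : ZMod 3) : ((if x ≠ y then 1 else 0 : ℕ) : ZMod 3) = (x - y) ^ 2 := by
  revert x y; decide

lemma cast_dist {ι : Type} [Fintype ι] [DecidableEq ι] (a b : ι → ZMod 3) :
    ((hammingDist a b : ℕ) : ZMod 3) = ∑ i, (a i - b i) ^ 2 := by
  unfold hammingDist
  rw [Finset.card_filter, Nat.cast_sum]
  exact Finset.sum_congr rfl fun i _ => sq_cast _ _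

lemma mul_self_of_ne (x : ZMod 3) (hx : x ≠ 0) : x * x = 1 := by
  revert x; decide

theorem info2 : S_info2 := by
  intro ι _ _ A B hAB
  classical
  have horth : ∀ a ∈ A, ∀ a' ∈ A, ∀ b ∈ B, ∀ b' ∈ B,
      ∑ i, (a i - a' i) * (b i - b' i) = 0 := by
    intro a ha a' ha' b hb b' hb'
    have h := hAB a ha a' ha' b hb b' hb'
    have h2 := congrArg (fun n : ℕ => (n : ZMod 3)) h
    simp only [Nat.cast_add, cast_dist] at h2
    rw [← Finset.sum_add_distrib, ← Finset.sum_add_distrib, ← sub_eq_zero,
      ← Finset.sum_sub_distrib] at h2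
    rw [← h2]
    refine Finset.sum_congr rfl fun i _ => ?_
    generalize a i = x
    generalize a' i = x'
    generalize b i = y
    generalize b' i = y'
    revert x x' y y'
    decide
  set U : (ι → ZMod 3) → Prop := fun u => ∀ b ∈ B, ∀ b' ∈ B, ∑ i, u i * (b i - b' i) = 0 with hU
  set Q : Finset ι → Prop := fun I => ∀ u : ι → ZMod 3, U u → (∀ i ∈ I, u i = 0) → u = 0 with hQ
  have huniv : Q univ := fun u _ h => funext fun i => h i (mem_univ i)
  obtain ⟨I, hI, hmin⟩ := (univ.filter Q).exists_min_image Finset.card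
    ⟨univ, mem_filter.mpr ⟨mem_univ _, huniv⟩⟩
  have hIQ : Q I := (mem_filter.mp hI).2
  have hex : ∀ i : ι, ∃ u : ι → ZMod 3, i ∈ I → (U u ∧ u i = 1 ∧ ∀ k ∈ I, k ≠ i → u k = 0) := by
    intro i
    by_cases hi : i ∈ I
    · have hnQ : ¬ Q (I.erase i) := fun h => by
        have h1 := hmin (I.erase i) (mem_filter.mpr ⟨mem_univ _, h⟩)
        have h2 := Finset.card_erase_lt_of_mem hi
        omega
      simp only [hQ] at hnQ
      push Not at hnQ
      obtain ⟨u, hu, hz, hne⟩ := hnQ
      have hui : u i ≠ 0 := by
        intro h0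
        apply hne
        apply hIQ u hu
        intro k hk
        by_cases hki : k = i
        · rw [hki, h0]
        · exact hz k (mem_erase.2 ⟨hki, hk⟩)
      refine ⟨fun k => u i * u k, fun _ => ⟨?_, mul_self_of_ne _ hui, ?_⟩⟩
      · intro b hb b' hb'
        have := hu b hb b' hb'
        have h1 : ∑ k, u i * u k * (b k - b' k) = u i * ∑ k, u k * (b k - b' k) := by
          rw [Finset.mul_sum]
          exact Finset.sum_congr rfl fun k _ => by ring
        rw [h1, this, mul_zero]
      · intro k hk hki
        show u i * u k = 0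
        rw [hz k (mem_erase.2 ⟨hki, hk⟩), mul_zero]
    · exact ⟨0, fun h => absurd h hi⟩
  choose v hv using hex
  refine ⟨I, fun l i => v i l, ?_, ?_⟩
  · intro a ha a' ha' l hl
    have h1 : (fun k => (a k - a' k) - ∑ i ∈ I, v i k * (a i - a' i)) = 0 := by
      apply hIQ
      · intro b hb b' hb'
        simp only [sub_mul]
        rw [Finset.sum_sub_distrib]
        have e1 : ∑ k, (a k * (b k - b' k) - a' k * (b k - b' k)) = 0 := by
          rw [← horth a ha a' ha' b hb b' hb']
          exact Finset.sum_congr rfl fun k _ => by ring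
        have e2 : ∑ k, (∑ i ∈ I, v i k * (a i - a' i)) * (b k - b' k) = 0 := by
          simp only [Finset.sum_mul]
          rw [Finset.sum_comm]
          refine Finset.sum_eq_zero fun i hi => ?_
          have := (hv i hi).1 b hb b' hb'
          have e3 : ∑ k, v i k * (a i - a' i) * (b k - b' k) =
              (a i - a' i) * ∑ k, v i k * (b k - b' k) := by
            rw [Finset.mul_sum]
            exact Finset.sum_congr rfl fun k _ => by ring
          rw [e3, this, mul_zero]
        rw [e1, e2, sub_zero]
      · intro k hk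
        rw [Finset.sum_eq_single k]
        · rw [(hv k hk).2.1, one_mul, sub_self]
        · intro i hi hik
          rw [(hv i hi).2.2 k hk (Ne.symm hik), zero_mul]
        · intro h; exact absurd hk h
    exact sub_eq_zero.1 (congrFun h1 l)
  · intro b hb b' hb' i hi
    have h1 := (hv i hi).1 b hb b' hb'
    rw [← Finset.sum_add_sum_compl I, Finset.sum_eq_single i] at h1
    · rw [(hv i hi).2.1, one_mul] at h1
      exact eq_neg_of_add_eq_zero_left h1
    · intro k hk hki
      rw [(hv i hi).2.2 k hk hki, zero_mul]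
    · intro h; exact absurd hi h

end Pool.Agent.Helper6.CW
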