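import Pool.Agent.Helper27.CW.Spec

/-! Q14b: two elements of `B` differing in many coordinates. -/

namespace Pool.Agent.Helper6.CW

open Finset Module Helper27.CD Helper27.CW

theorem spread : S_spread := by
  intro ι _ _ A B I M hRel hB N hN hNB
  classical
  have hp : Fact (Nat.Prime 3) := ⟨Nat.prime_three⟩
  obtain ⟨b₀, hb₀⟩ := hB
  set s : Set (ι → ZMod 3) := {v | ∃ b ∈ B, v = b - b₀} with hs
  -- the subspace of vectors determined by the coordinates off `I`
  set W : Submodule (ZMod 3) (ι → ZMod 3) :=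
    { carrier := {v | ∀ i ∈ I, v i = - ∑ l ∈ Iᶜ, M l i * v l}
      zero_mem' := by intro i _; simp
      add_mem' := by
        intro x y hx hy i hi
        simp only [Pi.add_apply, mul_add, Finset.sum_add_distrib]
        rw [hx i hi, hy i hi]; ring
      smul_mem' := by
        intro c x hx i hi
        simp only [Pi.smul_apply, smul_eq_mul]
        rw [hx i hi, mul_neg, Finset.mul_sum]
        congr 1
        exact Finset.sum_congr rfl fun l _ => by ring } with hW
  have hsW : Submodule.span (ZMod 3) s ≤ W := by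
    rw [Submodule.span_le]
    rintro v ⟨b, hb, rfl⟩ i hi
    exact hRel.2 b hb b₀ hb₀ i hi
  have hfin : finrank (ZMod 3) (Submodule.span (ZMod 3) s) ≤ Iᶜ.card := by
    have h1 := LinearMap.finrank_le_finrank_of_injective
      (f := (LinearMap.funLeft (ZMod 3) (ZMod 3)
        (Subtype.val : {l // l ∈ Iᶜ} → ι)).domRestrict (Submodule.span (ZMod 3) s)) (by
        rw [← LinearMap.ker_eq_bot, LinearMap.ker_eq_bot']
        intro v hv
        have h2 : ∀ l ∈ Iᶜ, v.1 l = 0 := fun l hl => congrFun hv ⟨l, hl⟩
        apply Subtype.ext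
        funext i
        by_cases hi : i ∈ I
        · rw [hsW v.2 i hi, Finset.sum_eq_zero fun l hl => by rw [h2 l hl, mul_zero]]
          simp
        · exact h2 i (Finset.mem_compl.2 hi))
    rw [finrank_fintype_fun_eq_card, Fintype.card_coe] at h1
    exact h1
  obtain ⟨r, hr, g, hg, hspan⟩ : ∃ r : ℕ, finrank (ZMod 3) (Submodule.span (ZMod 3) s) = r ∧
      ∃ g : Fin r → (ι → ZMod 3), (∀ i, g i ∈ s) ∧
        Submodule.span (ZMod 3) (Set.range g) = Submodule.span (ZMod 3) s := by
    obtain ⟨g, hg, hspan, -⟩ := Submodule.exists_fun_fin_finrank_span_eq (ZMod 3) s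
    exact ⟨_, rfl, g, hg, hspan⟩
  rw [hr] at hfin
  choose f hf hfg using hg
  have hcov : N ⊆ (univ : Finset (Fin r)).biUnion fun k => I.filter fun i => b₀ i ≠ f k i := by
    intro i hi
    by_contra hcon
    apply hNB i hi
    rw [mem_biUnion] at hcon
    push Not at hcon
    have h1 : ∀ k, g k i = 0 := by
      intro k
      have := hcon k (mem_univ k)
      rw [mem_filter] at this
      push Not at this
      rw [hfg k, Pi.sub_apply, this (hN hi), sub_self]
    have h2 : ∀ v ∈ Submodule.span (ZMod 3) s, v i = 0 := by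
      intro v hv
      rw [← hspan] at hv
      have : Submodule.span (ZMod 3) (Set.range g) ≤
          LinearMap.ker (LinearMap.proj (R := ZMod 3) (φ := fun _ : ι => ZMod 3) i) := by
        rw [Submodule.span_le]
        rintro _ ⟨k, rfl⟩
        exact h1 k
      exact this hv
    intro b hb b' hb'
    have h3 := h2 (b - b₀) (Submodule.subset_span ⟨b, hb, rfl⟩)
    have h4 := h2 (b' - b₀) (Submodule.subset_span ⟨b', hb', rfl⟩)
    rw [Pi.sub_apply, sub_eq_zero] at h3 h4
    rw [h3, h4]
  rcases Nat.eq_zero_or_pos r with h0 | h0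
  · refine ⟨b₀, hb₀, b₀, hb₀, ?_⟩
    have : N = ∅ := by
      rw [← Finset.subset_empty]
      refine hcov.trans ?_
      intro i hi
      rw [mem_biUnion] at hi
      obtain ⟨k, -, -⟩ := hi
      have := k.2
      omega
    rw [this]; simp
  · have : Nonempty (Fin r) := ⟨⟨0, h0⟩⟩
    obtain ⟨k, -, hk⟩ := exists_max_image (univ : Finset (Fin r))
      (fun k => (I.filter fun i => b₀ i ≠ f k i).card) univ_nonempty
    refine ⟨b₀, hb₀, f k, hf k, ?_⟩
    calc N.card ≤ _ := card_le_card hcov
      _ ≤ ∑ k : Fin r, (I.filter fun i => b₀ i ≠ f k i).card := card_biUnion_le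
      _ ≤ ∑ _k : Fin r, (I.filter fun i => b₀ i ≠ f k i).card :=
          Finset.sum_le_sum fun j _ => hk j (mem_univ j)
      _ = r * (I.filter fun i => b₀ i ≠ f k i).card := by simp
      _ ≤ _ := Nat.mul_le_mul_right _ hfin

end Pool.Agent.Helper6.CW
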