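import Pool.Agent.Helper6.CW.Q5d

/-! Q5a, Q5b: bounds for the bias from structure. -/

open Finset

namespace Pool.Agent.Helper6.CW

open Helper27.CW

lemma two_ne : (2 : ZMod 3) ≠ 0 := by decide

/-- linear combinations of given vectors -/
def comb {L κ : Type*} [Fintype κ] (Y : κ → L → ZMod 3) : (κ → ZMod 3) →+ (L → ZMod 3) where
  toFun f l := ∑ i, f i * Y i l
  map_zero' := by ext l; simp
  map_add' x y := by
    ext l
    simp only [Pi.add_apply, add_mul, Finset.sum_add_distrib]

lemma comb_apply {L κ : Type*} [Fintype κ] (Y : κ → L → ZMod 3) (f : κ → ZMod 3) (l : L) :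
    comb Y f l = ∑ i, f i * Y i l := rfl

theorem biasA_of (hm : S_gmono) (hd : S_gdiag) : S_biasA := by
  classical
  intro L S _ _ _ _ M S' R1 R2 hdisj h1 h2
  choose Y1 hY1s hY1 using fun i : {i // i ∈ S'} => h1 (Pi.single i.1 1)
  choose Y2 hY2s hY2 using fun i : {i // i ∈ S'} => h2 (Pi.single i.1 1)
  have key : ∀ (Y : {i // i ∈ S'} → L → ZMod 3),
      (∀ i : {i // i ∈ S'}, ∀ k ∈ S', ∑ r, M r k * Y i r = (Pi.single i.1 1 : S → ZMod 3) k) →
      ∀ (f : {i // i ∈ S'} → ZMod 3) (i : {i // i ∈ S'}), ∑ l, M l i.1 * comb Y f l = f i := by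
    intro Y hY f i
    simp only [comb_apply, Finset.mul_sum]
    rw [Finset.sum_comm, Finset.sum_eq_single i]
    · rw [show (∑ l, M l i.1 * (f i * Y i l)) = f i * ∑ l, M l i.1 * Y i l by
        rw [Finset.mul_sum]; exact Finset.sum_congr rfl fun l _ => by ring, hY i i.1 i.2,
        Pi.single_eq_same, mul_one]
    · intro k _ hk
      rw [show (∑ l, M l i.1 * (f k * Y k l)) = f k * ∑ l, M l i.1 * Y k l by
        rw [Finset.mul_sum]; exact Finset.sum_congr rfl fun l _ => by ring, hY k i.1 i.2,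
        Pi.single_eq_of_ne (fun h => hk (Subtype.ext h.symm)), mul_zero]
    · intro h; exact absurd (Finset.mem_univ _) h
  have h := hm _ _ _ _ _ _ _ _ (QM M) (Add4_QM M) (push (Subtype.val : {i // i ∈ S'} → S))
    (push (Subtype.val : {i // i ∈ S'} → S)) (comb Y1) (comb Y2)
  have e : (fun a b c d => QM M (push (Subtype.val : {i // i ∈ S'} → S) a)
      (push (Subtype.val : {i // i ∈ S'} → S) b) (comb Y1 c) (comb Y2 d)) =
      fun z z' y y' : {i // i ∈ S'} → ZMod 3 => ∑ i, 1 * (z i * z' i * y i * y' i) := by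
    funext z z' y y'
    simp only [QM]
    rw [show (∑ l, (∑ i, M l i * push (Subtype.val : {i // i ∈ S'} → S) z i) *
      (∑ i, M l i * push (Subtype.val : {i // i ∈ S'} → S) z' i) * comb Y1 y l * comb Y2 y' l) = 0
      from ?_, add_zero]
    · have h1 : ∀ i, push (Subtype.val : {i // i ∈ S'} → S) z i *
          push (Subtype.val : {i // i ∈ S'} → S) z' i * (∑ l, M l i * comb Y1 y l) *
          (∑ l, M l i * comb Y2 y' l) = ((∑ l, M l i * comb Y1 y l) *
          (∑ l, M l i * comb Y2 y' l)) * (push (Subtype.val : {i // i ∈ S'} → S) z i *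
          push (Subtype.val : {i // i ∈ S'} → S) z' i) := fun i => by ring
      rw [Finset.sum_congr rfl fun i _ => h1 i, sum_push_push Subtype.val_injective]
      refine Finset.sum_congr rfl fun i _ => ?_
      rw [key Y1 hY1 y i, key Y2 hY2 y' i]
      ring
    · refine Finset.sum_eq_zero fun l _ => ?_
      by_cases hl : l ∈ R1
      · have : comb Y2 y' l = 0 := by
          rw [comb_apply]
          exact Finset.sum_eq_zero fun i _ => by
            rw [hY2s i l fun h => (Finset.disjoint_left.1 hdisj) hl h, mul_zero]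
        rw [this, mul_zero]
      · have : comb Y1 y l = 0 := by
          rw [comb_apply]
          exact Finset.sum_eq_zero fun i _ => by rw [hY1s i l hl, mul_zero]
        rw [this, mul_zero, zero_mul]
  rw [e, hd {i // i ∈ S'} (fun _ => 1) fun _ => one_ne_zero, Fintype.card_coe] at h
  exact h

/-- the kernel of a linear map with small range -/
lemma card_ker {V W : Type} [AddCommGroup V] [AddCommGroup W] [Module (ZMod 3) V]
    [Module (ZMod 3) W] [Fintype V] [Fintype W] [Module.Finite (ZMod 3) V]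
    [Module.Finite (ZMod 3) W] (T : V →ₗ[ZMod 3] W) (j : ℕ)
    (hj : Module.finrank (ZMod 3) (LinearMap.range T) ≤ j) :
    Fintype.card V ≤ 3 ^ j * Nat.card (LinearMap.ker T) := by
  have : Fact (Nat.Prime 3) := ⟨Nat.prime_three⟩
  have h1 := LinearMap.finrank_range_add_finrank_ker T
  have h2 : Nat.card V = 3 ^ Module.finrank (ZMod 3) V := by
    rw [Module.natCard_eq_pow_finrank (K := ZMod 3), Nat.card_zmod]
  have h3 : Nat.card (LinearMap.ker T) = 3 ^ Module.finrank (ZMod 3) (LinearMap.ker T) := by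
    rw [Module.natCard_eq_pow_finrank (K := ZMod 3), Nat.card_zmod]
  rw [← Nat.card_eq_fintype_card, h2, h3, ← pow_add]
  exact Nat.pow_le_pow_right (by norm_num) (by omega)

theorem biasB_of (hm : S_gmono) (hi : S_gindex) (hd : S_gdiag) : S_biasB := by
  classical
  have : Fact (Nat.Prime 3) := ⟨Nat.prime_three⟩
  intro L S _ _ _ _ M S'' σ P lam j hσ hP hlam hM
  set φ : ({i // i ∈ S''} → ZMod 3) →+ (S → ZMod 3) := push (Subtype.val : {i // i ∈ S''} → S)
    with hφ
  set s : {i // i ∈ S''} → L := fun k => σ k.1 with hs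
  have hsinj : Function.Injective s := fun a b h => Subtype.ext (hσ a.2 b.2 h)
  set ψ : ({i // i ∈ S''} → ZMod 3) →+ (L → ZMod 3) := push s with hψ
  -- the linear maps
  set φl : ({i // i ∈ S''} → ZMod 3) →ₗ[ZMod 3] (S → ZMod 3) := φ.toZModLinearMap 3 with hφl
  set T1 : ({i // i ∈ S''} → ZMod 3) →ₗ[ZMod 3] (S → ZMod 3) := P.mulVecLin ∘ₗ φl with hT1
  set T2 : ({i // i ∈ S''} → ZMod 3) →ₗ[ZMod 3] (S → ZMod 3) :=
    P.transpose.mulVecLin ∘ₗ φl with hT2
  have hr1 : Module.finrank (ZMod 3) (LinearMap.range T1) ≤ j :=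
    (Submodule.finrank_mono (LinearMap.range_comp_le_range _ _)).trans hP
  have hr2 : Module.finrank (ZMod 3) (LinearMap.range T2) ≤ j := by
    refine (Submodule.finrank_mono (LinearMap.range_comp_le_range _ _)).trans ?_
    have := P.rank_transpose
    rw [Matrix.rank, Matrix.rank] at this
    rw [this]; exact hP
  have hk1 : ∀ z ∈ LinearMap.ker T1, ∀ k : S, ∑ i : {i // i ∈ S''}, P k i.1 * z i = 0 := by
    intro z hz k
    have h1 : T1 z k = 0 := by rw [LinearMap.mem_ker.1 hz]; rfl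
    have h2 : T1 z k = ∑ i, P k i * push (Subtype.val : {i // i ∈ S''} → S) z i := rfl
    rw [h2, sum_push _ z (fun i => P k i)] at h1
    exact h1
  have hk2 : ∀ z ∈ LinearMap.ker T2, ∀ i : S, ∑ k : {i // i ∈ S''}, P k.1 i * z k = 0 := by
    intro z hz i
    have h1 : T2 z i = 0 := by rw [LinearMap.mem_ker.1 hz]; rfl
    have h2 : T2 z i = ∑ k, P k i * push (Subtype.val : {i // i ∈ S''} → S) z k := rfl
    rw [h2, sum_push _ z (fun k => P k i)] at h1
    exact h1
  have : Fintype (LinearMap.ker T1) := Fintype.ofFinite _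
  have : Fintype (LinearMap.ker T2) := Fintype.ofFinite _
  set ι1 : LinearMap.ker T1 →+ ({i // i ∈ S''} → ZMod 3) :=
    (LinearMap.ker T1).subtype.toAddMonoidHom with hι1
  set ι2 : LinearMap.ker T2 →+ ({i // i ∈ S''} → ZMod 3) :=
    (LinearMap.ker T2).subtype.toAddMonoidHom with hι2
  have h := hm _ _ _ _ _ _ _ _ (QM M) (Add4_QM M) (φ.comp ι1) (φ.comp ι1) (ψ.comp ι2)
    (ψ.comp ι2)
  set D : ({i // i ∈ S''} → ZMod 3) → ({i // i ∈ S''} → ZMod 3) → ({i // i ∈ S''} → ZMod 3) →
      ({i // i ∈ S''} → ZMod 3) → ZMod 3 := fun z z' y y' =>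
    ∑ i, (2 * lam i.1 ^ 2) * (z i * z' i * y i * y' i) with hD
  have e : (fun a b c d => QM M (φ.comp ι1 a) (φ.comp ι1 b) (ψ.comp ι2 c) (ψ.comp ι2 d)) =
      fun a b c d => D (ι1 a) (ι1 b) (ι2 c) (ι2 d) := by
    funext a b c d
    simp only [QM, AddMonoidHom.comp_apply]
    have ha := hk1 _ a.2
    have hb := hk1 _ b.2
    have hc := hk2 _ c.2
    have hd := hk2 _ d.2
    -- rows
    have row : ∀ z : {i // i ∈ S''} → ZMod 3, (∀ k : S, ∑ i : {i // i ∈ S''}, P k i.1 * z i = 0) →
        ∀ k : {i // i ∈ S''}, ∑ i, M (s k) i * φ z i = lam k.1 * z k := by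
      intro z hz k
      rw [hφ, sum_push _ z (fun i => M (s k) i)]
      rw [Finset.sum_congr rfl (g := fun i : {i // i ∈ S''} => P k.1 i.1 * z i +
        (if i = k then lam i.1 * z i else 0)) (fun i _ => by
          rw [hM i.1 i.2 k.1 k.2]
          by_cases hik : i = k
          · subst hik; simp; ring
          · rw [if_neg (fun h => hik (Subtype.ext h)), if_neg hik]; ring),
        Finset.sum_add_distrib, hz k.1, zero_add, Finset.sum_ite_eq' Finset.univ k]
      simp
    have col : ∀ y : {i // i ∈ S''} → ZMod 3, (∀ i : S, ∑ k : {i // i ∈ S''}, P k.1 i * y k = 0) →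
        ∀ i : {i // i ∈ S''}, ∑ l, M l i.1 * ψ y l = lam i.1 * y i := by
      intro y hy i
      rw [hψ, sum_push _ y (fun l => M l i.1)]
      rw [Finset.sum_congr rfl (g := fun k : {i // i ∈ S''} => P k.1 i.1 * y k +
        (if k = i then lam k.1 * y k else 0)) (fun k _ => by
          rw [hs]
          simp only
          rw [hM i.1 i.2 k.1 k.2]
          by_cases hik : k = i
          · subst hik; simp; ring
          · rw [if_neg (fun h => hik (Subtype.ext h).symm), if_neg hik]; ring),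
        Finset.sum_add_distrib, hy i.1, zero_add, Finset.sum_ite_eq' Finset.univ i]
      simp
    have h1 : ∀ i, φ (ι1 a) i * φ (ι1 b) i * (∑ l, M l i * ψ (ι2 c) l) *
        (∑ l, M l i * ψ (ι2 d) l) = ((∑ l, M l i * ψ (ι2 c) l) * (∑ l, M l i * ψ (ι2 d) l)) *
        (φ (ι1 a) i * φ (ι1 b) i) := fun i => by ring
    have h2 : ∀ l, (∑ i, M l i * φ (ι1 a) i) * (∑ i, M l i * φ (ι1 b) i) * ψ (ι2 c) l *
        ψ (ι2 d) l = ((∑ i, M l i * φ (ι1 a) i) * (∑ i, M l i * φ (ι1 b) i)) *
        (ψ (ι2 c) l * ψ (ι2 d) l) := fun l => by ring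
    rw [Finset.sum_congr rfl fun i _ => h1 i, Finset.sum_congr rfl fun l _ => h2 l]
    have e1 := sum_push_push (f := (Subtype.val : {i // i ∈ S''} → S)) Subtype.val_injective
      (ι1 a) (ι1 b) (fun i => (∑ l, M l i * ψ (ι2 c) l) * (∑ l, M l i * ψ (ι2 d) l))
    have e2 := sum_push_push (f := s) hsinj (ι2 c) (ι2 d)
      (fun l => (∑ i, M l i * φ (ι1 a) i) * (∑ i, M l i * φ (ι1 b) i))
    rw [← hφ] at e1
    rw [← hψ] at e2
    rw [e1, e2, ← Finset.sum_add_distrib]
    refine Finset.sum_congr rfl fun i _ => ?_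
    rw [col (ι2 c) hc i, col (ι2 d) hd i, row (ι1 a) ha i, row (ι1 b) hb i]
    ring
  rw [e] at h
  have hDadd : Add4 D := by
    refine ⟨fun a a' b c d => ?_, fun a b b' c d => ?_, fun a b c c' d => ?_,
      fun a b c d d' => ?_⟩ <;>
    · simp only [hD, Pi.add_apply]
      rw [← Finset.sum_add_distrib]
      exact Finset.sum_congr rfl fun i _ => by ring
  have hc1 : Fintype.card ({i // i ∈ S''} → ZMod 3) ≤ 3 ^ j * Nat.card ι1.range := by
    have h1 := card_ker T1 j hr1
    have h2 : Nat.card ι1.range = Nat.card (LinearMap.ker T1) :=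
      (Nat.card_congr (AddMonoidHom.ofInjective (f := ι1)
        (Submodule.injective_subtype _)).toEquiv).symm
    rw [h2]; exact h1
  have hc2 : Fintype.card ({i // i ∈ S''} → ZMod 3) ≤ 3 ^ j * Nat.card ι2.range := by
    have h1 := card_ker T2 j hr2
    have h2 : Nat.card ι2.range = Nat.card (LinearMap.ker T2) :=
      (Nat.card_congr (AddMonoidHom.ofInjective (f := ι2)
        (Submodule.injective_subtype _)).toEquiv).symm
    rw [h2]; exact h1
  have h' := hi _ _ _ _ _ _ _ _ D hDadd ι1 ι1 ι2 ι2 (3 ^ j) hc1 hc1 hc2 hc2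
  have hdg := hd {i // i ∈ S''} (fun i => 2 * lam i.1 ^ 2) fun i =>
    mul_ne_zero two_ne (pow_ne_zero _ (hlam i.1 i.2))
  rw [Fintype.card_coe] at hdg
  have hdg' : GB D = (19 / 27 : ℝ) ^ S''.card := hdg
  rw [hdg'] at h'
  refine (h.trans h').trans (le_of_eq ?_)
  push_cast
  rw [← pow_mul, mul_comm j 4]

theorem biasA : S_biasA := biasA_of gmono gdiag

theorem biasB : S_biasB := biasB_of gmono gindex gdiag

end Pool.Agent.Helper6.CW
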