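import Pool.Agent.Helper6.CW.Basic

/-! Q5d: the diagonal form. Q5c: submatrices. -/

open Finset

namespace Pool.Agent.Helper6.CW

open Helper27.CW

lemma sum_prod_pi {κ : Type*} [Fintype κ] [DecidableEq κ] (g : κ → ZMod 3 → ℝ) :
    ∑ z : κ → ZMod 3, ∏ i, g i (z i) = ∏ i, ∑ x, g i x := by
  rw [Finset.prod_univ_sum, Fintype.piFinset_univ]

theorem gdiag : S_gdiag := by
  classical
  intro κ _ _ c hc
  have hin : ∀ z z' y : κ → ZMod 3,
      (∑ y' : κ → ZMod 3, chi (∑ i, c i * (z i * z' i * y i * y' i))) / 3 ^ Fintype.card κ =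
      ∏ i, (if z i * z' i * y i = 0 then (1 : ℝ) else 0) := by
    intro z z' y
    have h := sum_chi (fun y' : κ → ZMod 3 => ∑ i, c i * (z i * z' i * y i * y' i)) fun u v => by
      rw [← Finset.sum_add_distrib]
      exact Finset.sum_congr rfl fun i _ => by simp only [Pi.add_apply]; ring
    rw [h]
    by_cases hall : ∀ i, z i * z' i * y i = 0
    · rw [if_pos fun y' => Finset.sum_eq_zero fun i _ => by rw [hall i]; ring]
      rw [Finset.prod_eq_one fun i _ => if_pos (hall i)]
      simp
    · push Not at hall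
      obtain ⟨i, hi⟩ := hall
      rw [if_neg, zero_div]
      · exact (Finset.prod_eq_zero (Finset.mem_univ i) (if_neg hi)).symm
      · intro h0
        have h1 := h0 (Pi.single i 1)
        rw [Finset.sum_eq_single i] at h1
        · rw [Pi.single_eq_same, mul_one] at h1
          rcases mul_eq_zero.1 h1 with h2 | h2
          · exact hc i h2
          · exact hi h2
        · intro j _ hj
          rw [Pi.single_eq_of_ne hj]; ring
        · intro h2; exact absurd (Finset.mem_univ i) h2
  rw [GB_eq]
  have hcard : (Fintype.card (κ → ZMod 3) : ℝ) = 3 ^ Fintype.card κ := by simp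
  rw [hcard]
  simp only [hin]
  have e1 : ∀ z z' : κ → ZMod 3, ∑ y : κ → ZMod 3,
      ∏ i, (if z i * z' i * y i = 0 then (1 : ℝ) else 0) =
      ∏ i, ∑ t : ZMod 3, (if z i * z' i * t = 0 then (1 : ℝ) else 0) :=
    fun z z' => sum_prod_pi (fun i t => if z i * z' i * t = 0 then (1 : ℝ) else 0)
  have e2 : ∀ z : κ → ZMod 3, ∑ z' : κ → ZMod 3,
      ∏ i, ∑ t : ZMod 3, (if z i * z' i * t = 0 then (1 : ℝ) else 0) =
      ∏ i, ∑ t' : ZMod 3, ∑ t : ZMod 3, (if z i * t' * t = 0 then (1 : ℝ) else 0) :=
    fun z => sum_prod_pi (fun i t' => ∑ t : ZMod 3, if z i * t' * t = 0 then (1 : ℝ) else 0)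
  have e3 : ∑ z : κ → ZMod 3,
      ∏ i, ∑ t' : ZMod 3, ∑ t : ZMod 3, (if z i * t' * t = 0 then (1 : ℝ) else 0) =
      ∏ _i : κ, ∑ t'' : ZMod 3, ∑ t' : ZMod 3, ∑ t : ZMod 3,
        (if t'' * t' * t = 0 then (1 : ℝ) else 0) :=
    sum_prod_pi (fun _ t'' => ∑ t' : ZMod 3, ∑ t : ZMod 3, if t'' * t' * t = 0 then (1 : ℝ) else 0)
  have e4 : ∑ t'' : ZMod 3, ∑ t' : ZMod 3, ∑ t : ZMod 3,
        (if t'' * t' * t = 0 then (1 : ℝ) else 0) = 19 := by
    have h : ∑ t'' : ZMod 3, ∑ t' : ZMod 3, ∑ t : ZMod 3,
        (if t'' * t' * t = 0 then 1 else 0) = 19 := by decide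
    exact_mod_cast h
  simp only [e1, e2, e3, e4]
  rw [Finset.prod_const, Finset.card_univ, div_pow, ← mul_pow, ← mul_pow]
  norm_num

/-! ### extension maps -/

/-- push forward along `f` -/
def push {L L' : Type*} [Fintype L'] [DecidableEq L] (f : L' → L) : (L' → ZMod 3) →+ (L → ZMod 3) where
  toFun y l := ∑ l', if f l' = l then y l' else 0
  map_zero' := by ext l; simp
  map_add' x y := by
    ext l
    simp only [Pi.add_apply]
    rw [← Finset.sum_add_distrib]
    exact Finset.sum_congr rfl fun l' _ => by split_ifs <;> simp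

lemma push_apply {L L' : Type*} [Fintype L'] [DecidableEq L] (f : L' → L) (y : L' → ZMod 3)
    (l : L) : push f y l = ∑ l', if f l' = l then y l' else 0 := rfl

lemma sum_push {L L' : Type*} [Fintype L] [Fintype L'] [DecidableEq L] (f : L' → L)
    (y : L' → ZMod 3) (m : L → ZMod 3) : ∑ l, m l * push f y l = ∑ l', m (f l') * y l' := by
  simp only [push_apply, Finset.mul_sum]
  rw [Finset.sum_comm]
  refine Finset.sum_congr rfl fun l' _ => ?_
  rw [Finset.sum_eq_single (f l')]
  · simp
  · intro l _ hl
    rw [if_neg (Ne.symm hl), mul_zero]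
  · intro h; exact absurd (Finset.mem_univ _) h

lemma push_image {L L' : Type*} [Fintype L'] [DecidableEq L] [DecidableEq L'] {f : L' → L}
    (hf : Function.Injective f) (y : L' → ZMod 3) (l' : L') : push f y (f l') = y l' := by
  rw [push_apply, Finset.sum_eq_single l']
  · simp
  · intro k _ hk
    rw [if_neg fun h => hk (hf h)]
  · intro h; exact absurd (Finset.mem_univ _) h

lemma push_zero_of_not_range {L L' : Type*} [Fintype L'] [DecidableEq L] {f : L' → L}
    (y : L' → ZMod 3) {l : L} (hl : ∀ l', f l' ≠ l) : push f y l = 0 := by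
  rw [push_apply]
  exact Finset.sum_eq_zero fun l' _ => if_neg (hl l')

/-- the product of two pushed vectors -/
lemma sum_push_push {L L' : Type*} [Fintype L] [Fintype L'] [DecidableEq L] [DecidableEq L']
    {f : L' → L} (hf : Function.Injective f) (y y' : L' → ZMod 3) (m : L → ZMod 3) :
    ∑ l, m l * (push f y l * push f y' l) = ∑ l', m (f l') * (y l' * y' l') := by
  have h : ∀ l, m l * (push f y l * push f y' l) = (m l * push f y l) * push f y' l :=
    fun l => by ring
  rw [Finset.sum_congr rfl fun l _ => h l, sum_push]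
  refine Finset.sum_congr rfl fun l' _ => ?_
  rw [push_image hf]; ring

lemma Add4_QM {L S : Type*} [Fintype L] [Fintype S] (M : Matrix L S (ZMod 3)) : Add4 (QM M) := by
  refine ⟨fun a a' b c d => ?_, fun a b b' c d => ?_, fun a b c c' d => ?_,
    fun a b c d d' => ?_⟩ <;>
  · simp only [QM, Pi.add_apply, mul_add, add_mul, Finset.sum_add_distrib]
    ring

theorem biasC_of (hm : S_gmono) : S_biasC := by
  classical
  intro L S L' S' _ _ _ _ _ _ _ _ M f g hf hg
  have h := hm _ _ _ _ _ _ _ _ (QM M) (Add4_QM M) (push g) (push g) (push f) (push f)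
  have e : (fun a b c d => QM M (push g a) (push g b) (push f c) (push f d)) =
      QM (M.submatrix f g) := by
    funext z z' y y'
    simp only [QM, Matrix.submatrix_apply]
    congr 1
    · have h1 : ∀ i, push g z i * push g z' i * (∑ l, M l i * push f y l) *
          (∑ l, M l i * push f y' l) = ((∑ l', M (f l') i * y l') * (∑ l', M (f l') i * y' l')) *
          (push g z i * push g z' i) := by
        intro i
        rw [sum_push f y (fun l => M l i), sum_push f y' (fun l => M l i)]
        ring
      rw [Finset.sum_congr rfl fun i _ => h1 i, sum_push_push hg]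
      exact Finset.sum_congr rfl fun i _ => by ring
    · have h1 : ∀ l, (∑ i, M l i * push g z i) * (∑ i, M l i * push g z' i) * push f y l *
          push f y' l = ((∑ i', M l (g i') * z i') * (∑ i', M l (g i') * z' i')) *
          (push f y l * push f y' l) := by
        intro l
        rw [sum_push g z (fun i => M l i), sum_push g z' (fun i => M l i)]
        ring
      rw [Finset.sum_congr rfl fun i _ => h1 i, sum_push_push hf]
      exact Finset.sum_congr rfl fun i _ => by ring
  rw [e] at h
  exact h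

theorem biasC : S_biasC := biasC_of gmono

end Pool.Agent.Helper6.CW
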