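import Pool.Agent.Helper6.CW.Q5ab

/-! Q6: the bias is exponentially small in the rank. -/

open Finset Module

namespace Pool.Agent.Helper6.CW

open Helper27.CW

/-- independent rows -/
lemma exists_rows {L S : Type} [Fintype L] [Fintype S] (M : Matrix L S (ZMod 3)) (ρ : ℕ)
    (h : M.rank = ρ) : ∃ f : Fin ρ → L, LinearIndependent (ZMod 3) fun a => M.row (f a) := by
  have hp : Fact (Nat.Prime 3) := ⟨Nat.prime_three⟩
  have h5 : finrank (ZMod 3) (Submodule.span (ZMod 3) (Set.range M.row)) = ρ := by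
    rw [← Matrix.rank_eq_finrank_span_row]; exact h
  obtain ⟨g, hg, -, hgli⟩ := Submodule.exists_fun_fin_finrank_span_eq (ZMod 3)
    (Set.range M.row)
  choose f hf using hg
  refine ⟨fun a => f (finCongr h5.symm a), ?_⟩
  have h7 := hgli.comp (finCongr h5.symm) (finCongr h5.symm).injective
  have h8 : (fun a => M.row (f (finCongr h5.symm a))) = g ∘ (finCongr h5.symm) := by
    funext a
    rw [Function.comp_apply, ← hf]
  rw [h8]; exact h7

/-- an invertible submatrix of full rank -/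
lemma exists_submatrix {L S : Type} [Fintype L] [Fintype S]
    (M : Matrix L S (ZMod 3)) : ∃ (f : Fin M.rank → L) (g : Fin M.rank → S),
      Function.Injective f ∧ Function.Injective g ∧ IsUnit (M.submatrix f g).det := by
  have hp : Fact (Nat.Prime 3) := ⟨Nat.prime_three⟩
  obtain ⟨f, hf⟩ := exists_rows M M.rank rfl
  set M1 : Matrix (Fin M.rank) S (ZMod 3) := M.submatrix f id with hM1
  have h1 : LinearIndependent (ZMod 3) M1.row := hf
  have h2 : M1.rank = M.rank := by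
    rw [h1.rank_matrix, Fintype.card_fin]
  obtain ⟨g, hg⟩ := exists_rows M1.transpose M.rank (by rw [Matrix.rank_transpose]; exact h2)
  have h3 : LinearIndependent (ZMod 3) (M.submatrix f g).transpose.row := hg
  have h4 := Matrix.linearIndependent_rows_iff_isUnit.1 h3
  have h5 := (Matrix.isUnit_iff_isUnit_det _).1 h4
  rw [Matrix.det_transpose] at h5
  refine ⟨f, g, ?_, ?_, h5⟩
  · intro a b hab
    by_contra hne
    apply h5.ne_zero
    apply Matrix.det_zero_of_row_eq hne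
    funext c
    simp [hab]
  · intro a b hab
    by_contra hne
    apply h5.ne_zero
    apply Matrix.det_zero_of_column_eq hne
    intro c
    simp [hab]

theorem biasrank_of (hdich : S_dich) (hA : S_biasA) (hB : S_biasB) (hC : S_biasC) :
    S_biasrank := by
  classical
  intro L S _ _ _ _ M
  obtain ⟨ρ, hρ, f, g, hf, hg, hu⟩ : ∃ ρ : ℕ, M.rank = ρ ∧ ∃ (f : Fin ρ → L) (g : Fin ρ → S),
      Function.Injective f ∧ Function.Injective g ∧ IsUnit (M.submatrix f g).det :=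
    ⟨M.rank, rfl, exists_submatrix M⟩
  rw [hρ]
  set N := M.submatrix f g with hN
  have h1 : Bias M ≤ Bias N := hC L S (Fin ρ) (Fin ρ) M f g hf hg
  obtain ⟨j, ⟨S', R1, R2, hj, hdis, hs1, hs2⟩, S'', σ, P, lam, hcard, hσ, hP, hlam, hM⟩ :=
    hdich (Fin ρ) N hu
  rw [Fintype.card_fin] at hcard
  have hA' := hA (Fin ρ) (Fin ρ) N S' R1 R2 hdis hs1 hs2
  have hB' := hB (Fin ρ) (Fin ρ) N S'' σ P lam j hσ hP hlam hM
  rw [hj] at hA'
  have h0 : 0 ≤ Bias M := GB_nonneg (Add4_QM M)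
  have h0' : 0 ≤ Bias N := GB_nonneg (Add4_QM N)
  refine (pow_le_pow_left₀ h0 h1 20).trans ?_
  have hlt : (19 / 27 : ℝ) ≤ 1 := by norm_num
  have hpos : (0 : ℝ) ≤ 19 / 27 := by norm_num
  rcases le_or_gt ρ (20 * j) with hle | hgt
  · calc Bias N ^ 20 ≤ ((19 / 27 : ℝ) ^ j) ^ 20 := pow_le_pow_left₀ h0' hA' 20
      _ = (19 / 27 : ℝ) ^ (20 * j) := by rw [← pow_mul, mul_comm]
      _ ≤ (19 / 27 : ℝ) ^ ρ := pow_le_pow_of_le_one hpos hlt hle
  · have hs : ρ - 3 * j ≤ S''.card := by omega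
    have h3 : (3 : ℝ) * (19 / 27) ^ 4 ≤ 1 := by norm_num
    calc Bias N ^ 20 ≤ ((3 : ℝ) ^ (4 * j) * (19 / 27 : ℝ) ^ S''.card) ^ 20 :=
          pow_le_pow_left₀ h0' hB' 20
      _ ≤ ((3 : ℝ) ^ (4 * j) * (19 / 27 : ℝ) ^ (ρ - 3 * j)) ^ 20 := by
          gcongr ?_ ^ 20
          gcongr ?_ * ?_
          exact pow_le_pow_of_le_one hpos hlt hs
      _ = (3 : ℝ) ^ (80 * j) * (19 / 27 : ℝ) ^ (20 * (ρ - 3 * j)) := by
          rw [mul_pow, ← pow_mul, ← pow_mul]
          congr 2 <;> ring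
      _ = (3 : ℝ) ^ (80 * j) * (19 / 27 : ℝ) ^ (4 * (80 * j) + (20 * (ρ - 3 * j) - 320 * j)) := by
          congr 2
          omega
      _ = ((3 : ℝ) * (19 / 27) ^ 4) ^ (80 * j) * (19 / 27 : ℝ) ^ (20 * (ρ - 3 * j) - 320 * j) := by
          rw [pow_add, mul_pow, ← pow_mul, mul_assoc]
      _ ≤ 1 * (19 / 27 : ℝ) ^ (20 * (ρ - 3 * j) - 320 * j) := by
          gcongr
          exact pow_le_one₀ (by norm_num) h3
      _ = (19 / 27 : ℝ) ^ (20 * (ρ - 3 * j) - 320 * j) := one_mul _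
      _ ≤ (19 / 27 : ℝ) ^ ρ := pow_le_pow_of_le_one hpos hlt (by omega)

end Pool.Agent.Helper6.CW
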